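import Pool.Agent.L7h20.NF.Stm

/-!
# Project NF, maps between manifolds (statements)

`X`, `Y` manifolds of dimension `m + 1`, `κ : Y → E a` with a smooth retraction `ρ` of a neighbourhood `U` of
its image. Sections of `f^* TY` are represented by maps `V : X → E a`; in a chart `B` of `Y` the section
is `dV κ ρ f V B x = D(B ∘ ρ)(κ (f x)) (V x)`. The perturbation is `G = ρ (κ ∘ f + ε V)`.

At the SINGULAR points (only there) the sign of `tauY` does not depend on the chart `B`.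
The good set `GdY` and the rest of the proof is as in `Stm.lean`; the leafy sets live over a
single chart `e` of `Y`, that is in the open submanifold `X'` with `f X' ⊆ e.source`, where the statements
for maps to `E (m + 1)` (PROP, CIRC) are applied to `F' = e ∘ f`.
-/

set_option autoImplicit false

open Set Filter Topology Metric Function
open scoped Manifold ContDiff

noncomputable section

namespace Pool.Agent.L7h20.NF

open Pool.Agent.Y522

section defs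

variable {m a : ℕ} {X Y : Type} [TopologicalSpace X] [ChartedSpace (E (m + 1)) X]
  [TopologicalSpace Y] [ChartedSpace (E (m + 1)) Y]

/-- `κ` is a smooth map and `ρ` a smooth retraction -/
structure Ret (κ : Y → E a) (ρ : E a → Y) (U : Set (E a)) : Prop where
  op : IsOpen U
  mem : ∀ y, κ y ∈ U
  smk : ContMDiff (𝓡 (m + 1)) (𝓡 a) ∞ κ
  smr : ∀ u ∈ U, ContMDiffAt (𝓡 a) (𝓡 (m + 1)) ∞ ρ u
  ret : ∀ y, ρ (κ y) = y

/-- the section `V` in the chart `B` -/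
def dV (κ : Y → E a) (ρ : E a → Y) (f : X → Y) (V : X → E a) (B : Y → E (m + 1)) (x : X) :
    E (m + 1) := fderiv ℝ (fun u => B (ρ u)) (κ (f x)) (V x)

/-- the derivative of `f` in the coordinates `A`, `B` -/
def dY (f : X → Y) (A : E (m + 1) → X) (B : Y → E (m + 1)) (z : E (m + 1)) :
    E (m + 1) →L[ℝ] E (m + 1) := fderiv ℝ (fun w => B (f (A w))) z

/-- coordinates `A`, `B` in which the Jacobian is nonnegative near `z` -/
structure CoY (f : X → Y) (A : E (m + 1) → X) (B : Y → E (m + 1)) (z : E (m + 1)) : Prop where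
  ld : LD (m + 1) A z
  lb : LD (m + 1) B (f (A z))
  nn : ∀ᶠ w in 𝓝 z, 0 ≤ (dY f A B w).det

/-- the derivative of the Jacobian in the direction `V` -/
def tauY (κ : Y → E a) (ρ : E a → Y) (f : X → Y) (V : X → E a) (A : E (m + 1) → X)
    (B : Y → E (m + 1)) (z : E (m + 1)) : ℝ :=
  dd (dY f A B z) (fderiv ℝ (fun w => dV κ ρ f V B (A w)) z)

def PosY (κ : Y → E a) (ρ : E a → Y) (f : X → Y) (V : X → E a) (x : X) : Prop :=
  ∃ (A : E (m + 1) → X) (B : Y → E (m + 1)) (z : E (m + 1)),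
    A z = x ∧ CoY f A B z ∧ 0 < tauY κ ρ f V A B z

def NNY (κ : Y → E a) (ρ : E a → Y) (f : X → Y) (V : X → E a) (x : X) : Prop :=
  ∃ (A : E (m + 1) → X) (B : Y → E (m + 1)) (z : E (m + 1)),
    A z = x ∧ CoY f A B z ∧ 0 ≤ tauY κ ρ f V A B z

/-- smooth maps to `E a` -/
def SmA (V : X → E a) : Prop := ContMDiff (𝓡 (m + 1)) (𝓡 a) ∞ V

/-- `f` is smooth, regular on a dense set, and its Jacobian does not change its sign locally -/
structure SettingY (f : X → Y) : Prop where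
  smooth : ContMDiff (𝓡 (m + 1)) (𝓡 (m + 1)) ∞ f
  dense : Dense {x | LD (m + 1) f x}
  sign : ∀ x, ∃ (A : E (m + 1) → X) (B : Y → E (m + 1)) (z : E (m + 1)), A z = x ∧ CoY f A B z

/-- the good points -/
def GdY (κ : Y → E a) (ρ : E a → Y) (f : X → Y) : Set X :=
  {x | ∃ V : X → E a, SmA (m := m) V ∧ HasCompactSupport V ∧
    (∀ y, ¬ LD (m + 1) f y → NNY (m := m) κ ρ f V y) ∧ PosY (m := m) κ ρ f V x}

/-- the rank of `f` at `x` is at least `m` -/
def RkY (f : X → Y) (x : X) : Prop :=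
  m ≤ Module.finrank ℝ (LinearMap.range
    (mfderiv (𝓡 (m + 1)) (𝓡 (m + 1)) f x).toLinearMap)

end defs

/-- LEAF2 (abstract, maps to `E (m + 1)`). Proof. `H` = the range of `DF_x` (dimension `m` by REG), `ν ≠ 0` a
functional with kernel `H`, `P` from `Pool.Agent.Y170.NA.exists_proj` (onto on `H`);
`K = {q ∈ S | F q = F x, ν ∘ DF_q = 0}`; in a box at `q ∈ K` the leaf lies in `S`, so
`∂h/∂z₀ = 0` on it, `F` is constant, and `h (t', y) - h (t, y) ≥ 0` has a minimum at `y = 0`, so `DF` (in the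
coordinates `A`) is constant on the leaf. -/
def S_LEAF2 : Prop :=
  ∀ (m : ℕ) (X : Type) [TopologicalSpace X] [T2Space X] [ChartedSpace (E (m + 1)) X]
    [IsManifold (𝓡 (m + 1)) ∞ X] (F : X → E (m + 1)) (S : Set X) (x : X), Setting F →
    IsClosed S → (∀ q ∈ S, ¬ LD (m + 1) F q ∧ Rk F q) → IsCompact {q | q ∈ S ∧ F q = F x} →
    (∀ (P : E (m + 1) →L[ℝ] E m) (A : E (m + 1) → X) (L : E (m + 1) ≃L[ℝ] E (m + 1)) (b : E m),
      Bx F P A L b → A 0 ∈ S → ∀ t : ℝ, |t| < 1 → A (t • e0) ∈ S) →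
    x ∈ S → ∃ (P : E (m + 1) →L[ℝ] E m) (K : Set X), x ∈ K ∧ Leafy F P K ∧ ∀ q ∈ K, Sub P F q

/-- INDY: at a singular point the sign of `tauY` does not depend on the coordinates. Proof. `A' = A ∘ ψ`,
`B' = Λ ∘ B` near the points; `dV' = DΛ (B f) (dV)`, so
`D (dV' ∘ A') = D²Λ (D(B f A') ·, dV) + DΛ ∘ D (dV ∘ A) ∘ Dψ`; `dd P (T ∘ P) = 0` if `det P = 0`
(DET1: `dd (1 · P) (T · P) = det P * dd 1 T`). -/
def S_INDY : Prop :=
  ∀ (m a : ℕ) (X Y : Type) [TopologicalSpace X] [ChartedSpace (E (m + 1)) X]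
    [IsManifold (𝓡 (m + 1)) ∞ X] [TopologicalSpace Y] [ChartedSpace (E (m + 1)) Y]
    [IsManifold (𝓡 (m + 1)) ∞ Y] (κ : Y → E a) (ρ : E a → Y) (U : Set (E a)) (f : X → Y),
    Ret (m := m) κ ρ U → SettingY (m := m) f →
    ∀ (A : E (m + 1) → X) (B : Y → E (m + 1)) (z : E (m + 1))
      (A' : E (m + 1) → X) (B' : Y → E (m + 1)) (z' : E (m + 1)),
      A z = A' z' → ¬ LD (m + 1) f (A z) → CoY f A B z → CoY f A' B' z' →
      ∃ c : ℝ, 0 < c ∧ ∀ V : X → E a, SmA (m := m) V →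
        tauY κ ρ f V A' B' z' = c * tauY κ ρ f V A B z

/-- CONEY: consequences of INDY at the singular points. -/
def S_CONEY : Prop :=
  ∀ (m a : ℕ) (X Y : Type) [TopologicalSpace X] [ChartedSpace (E (m + 1)) X]
    [IsManifold (𝓡 (m + 1)) ∞ X] [TopologicalSpace Y] [ChartedSpace (E (m + 1)) Y]
    [IsManifold (𝓡 (m + 1)) ∞ Y] (κ : Y → E a) (ρ : E a → Y) (U : Set (E a)) (f : X → Y),
    Ret (m := m) κ ρ U → SettingY (m := m) f →
    (∀ (V W : X → E a) (x : X), SmA (m := m) V → SmA (m := m) W → ¬ LD (m + 1) f x →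
      NNY (m := m) κ ρ f V x → NNY (m := m) κ ρ f W x →
        NNY (m := m) κ ρ f (fun y => V y + W y) x) ∧
    (∀ (V W : X → E a) (x : X), SmA (m := m) V → SmA (m := m) W → ¬ LD (m + 1) f x →
      PosY (m := m) κ ρ f V x → NNY (m := m) κ ρ f W x →
        PosY (m := m) κ ρ f (fun y => V y + W y) x) ∧
    (∀ (V : X → E a) (x : X) (C : ℝ), SmA (m := m) V → 0 ≤ C → ¬ LD (m + 1) f x →
      NNY (m := m) κ ρ f V x → NNY (m := m) κ ρ f (fun y => C • V y) x) ∧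
    (∀ (V : X → E a) (x : X), SmA (m := m) V → ¬ LD (m + 1) f x → PosY (m := m) κ ρ f V x →
      ∀ᶠ y in 𝓝 x, ¬ LD (m + 1) f y → PosY (m := m) κ ρ f V y) ∧
    (∀ (V : X → E a) (x : X), PosY (m := m) κ ρ f V x → NNY (m := m) κ ρ f V x) ∧
    (∀ x, NNY (m := m) κ ρ f (fun _ => (0 : E a)) x) ∧
    (∀ (A : E (m + 1) → X) (B : Y → E (m + 1)) (z : E (m + 1)) (V : X → E a), SmA (m := m) V →
      ¬ LD (m + 1) f (A z) → CoY f A B z →
      (NNY (m := m) κ ρ f V (A z) ↔ 0 ≤ tauY κ ρ f V A B z) ∧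
      (PosY (m := m) κ ρ f V (A z) ↔ 0 < tauY κ ρ f V A B z))

/-- the map `e ∘ f` on the open submanifold `X'` -/
def locF {m : ℕ} {X Y : Type} [TopologicalSpace X] [TopologicalSpace Y] (f : X → Y)
    (e : Y → E (m + 1)) (X' : TopologicalSpace.Opens X) : X' → E (m + 1) := fun x => e (f x)

/-- XFER: over a chart `e` of `Y`. -/
def S_XFER : Prop :=
  ∀ (m a : ℕ) (X Y : Type) [TopologicalSpace X] [ChartedSpace (E (m + 1)) X]
    [IsManifold (𝓡 (m + 1)) ∞ X] [TopologicalSpace Y] [ChartedSpace (E (m + 1)) Y]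
    [IsManifold (𝓡 (m + 1)) ∞ Y] (κ : Y → E a) (ρ : E a → Y) (U : Set (E a)) (f : X → Y)
    (y₀ : Y) (X' : TopologicalSpace.Opens X),
    Ret (m := m) κ ρ U → SettingY (m := m) f →
    (∀ x : X', f x ∈ (chartAt (E (m + 1)) y₀).source) →
    Setting (locF f (chartAt (E (m + 1)) y₀) X') ∧
    (∀ x : X', LD (m + 1) (locF f (chartAt (E (m + 1)) y₀) X') x ↔ LD (m + 1) f (x : X)) ∧
    (∀ x : X', Rk (locF f (chartAt (E (m + 1)) y₀) X') x ↔ RkY (m := m) f (x : X)) ∧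
    ∀ V : X → E a, SmA (m := m) V →
      Sm (fun x : X' => dV κ ρ f V (chartAt (E (m + 1)) y₀) (x : X)) ∧
      ∀ x : X', ¬ LD (m + 1) f (x : X) →
        (NNY (m := m) κ ρ f V (x : X) ↔ NN (locF f (chartAt (E (m + 1)) y₀) X')
          (fun x : X' => dV κ ρ f V (chartAt (E (m + 1)) y₀) (x : X)) x) ∧
        (PosY (m := m) κ ρ f V (x : X) ↔ Pos (locF f (chartAt (E (m + 1)) y₀) X')
          (fun x : X' => dV κ ρ f V (chartAt (E (m + 1)) y₀) (x : X)) x)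

/-- PROPY: propagation of the bad set (from PROP applied to `locF`). The section is
`V = C V₁ + σ̂ • W ∘ f`, `W y = D(κ ∘ e⁻¹)(e y) (L⁻¹ e0)`, `σ̂` the extension by zero of `σ`;
`dV (W ∘ f) = L⁻¹ e0` on `X'` because `ρ ∘ κ = id`. Outside `X'` the section is `C V₁` near the point. -/
def S_PROPY : Prop :=
  ∀ (m a : ℕ) (X Y : Type) [TopologicalSpace X] [T2Space X] [ChartedSpace (E (m + 1)) X]
    [IsManifold (𝓡 (m + 1)) ∞ X] [TopologicalSpace Y] [ChartedSpace (E (m + 1)) Y]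
    [IsManifold (𝓡 (m + 1)) ∞ Y] (κ : Y → E a) (ρ : E a → Y) (U : Set (E a)) (f : X → Y)
    (y₀ : Y) (X' : TopologicalSpace.Opens X),
    Ret (m := m) κ ρ U → SettingY (m := m) f → IsCompact {x | ¬ LD (m + 1) f x} →
    (∀ x : X', f x ∈ (chartAt (E (m + 1)) y₀).source) →
    ∀ (P : E (m + 1) →L[ℝ] E m) (A : E (m + 1) → X') (L : E (m + 1) ≃L[ℝ] E (m + 1)) (b : E m),
      Bx (locF f (chartAt (E (m + 1)) y₀) X') P A L b →
      ¬ LD (m + 1) f (A 0 : X) → (A 0 : X) ∉ GdY (m := m) κ ρ f → ∀ t : ℝ, |t| < 1 →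
        ¬ LD (m + 1) f (A (t • e0) : X) ∧ (A (t • e0) : X) ∉ GdY (m := m) κ ρ f

/-- SUMY: a finite sum. -/
def S_SUMY : Prop :=
  ∀ (m a : ℕ) (X Y : Type) [TopologicalSpace X] [T2Space X] [ChartedSpace (E (m + 1)) X]
    [IsManifold (𝓡 (m + 1)) ∞ X] [TopologicalSpace Y] [ChartedSpace (E (m + 1)) Y]
    [IsManifold (𝓡 (m + 1)) ∞ Y] (κ : Y → E a) (ρ : E a → Y) (U : Set (E a)) (f : X → Y),
    Ret (m := m) κ ρ U → SettingY (m := m) f → IsCompact {x | ¬ LD (m + 1) f x} →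
    (∀ x, ¬ LD (m + 1) f x → x ∈ GdY (m := m) κ ρ f) →
    ∃ V : X → E a, SmA (m := m) V ∧ HasCompactSupport V ∧
      ∀ x, ¬ LD (m + 1) f x → PosY (m := m) κ ρ f V x

/-- DET3: a family `P ε w` of matrices: if `det (P 0 w) ≥ 0` near `z` and the derivative of the
determinant in `ε` at `(0, z)` is positive then `det (P ε w) > 0` for small `ε > 0` and `w` near `z` (mean value
theorem); if `det (P 0 z) ≠ 0` by continuity. -/
def S_DET3 : Prop :=
  ∀ (m : ℕ) (P P' : ℝ → E (m + 1) → E (m + 1) →L[ℝ] E (m + 1)) (z : E (m + 1)),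
    ContinuousAt (fun p : ℝ × E (m + 1) => P p.1 p.2) (0, z) →
    ContinuousAt (fun p : ℝ × E (m + 1) => P' p.1 p.2) (0, z) →
    (∀ᶠ p : ℝ × E (m + 1) in 𝓝 (0, z), HasDerivAt (fun ε => P ε p.2) (P' p.1 p.2) p.1) →
    ((∀ᶠ w in 𝓝 z, 0 ≤ (P 0 w).det) → 0 < dd (P 0 z) (P' 0 z) →
      ∃ η : ℝ, 0 < η ∧ ∀ᶠ w in 𝓝 z, ∀ ε : ℝ, 0 < ε → ε < η → 0 < (P ε w).det) ∧
    ((P 0 z).det ≠ 0 →
      ∃ η : ℝ, 0 < η ∧ ∀ᶠ w in 𝓝 z, ∀ ε : ℝ, 0 < ε → ε < η → (P ε w).det ≠ 0)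

/-- FINY: `G = ρ (κ ∘ f + ε V)`. At every point of `tsupport V` DET3 for
`P ε w = D (B ∘ G_ε ∘ A) w = D(B ∘ ρ)(c w + ε v w) ∘ (D c w + ε D v w)`, `c = κ ∘ f ∘ A`, `v = V ∘ A`
(`P' 0 z = D (dV ∘ A) z` by the symmetry of the second derivative). -/
def S_FINY : Prop :=
  ∀ (m a : ℕ) (X Y : Type) [TopologicalSpace X] [T2Space X] [ChartedSpace (E (m + 1)) X]
    [IsManifold (𝓡 (m + 1)) ∞ X] [TopologicalSpace Y] [ChartedSpace (E (m + 1)) Y]
    [IsManifold (𝓡 (m + 1)) ∞ Y] (κ : Y → E a) (ρ : E a → Y) (U : Set (E a)) (f : X → Y)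
    (V : X → E a) (O : Set (X × Y)),
    Ret (m := m) κ ρ U → SettingY (m := m) f → SmA (m := m) V → HasCompactSupport V →
    (∀ x, ¬ LD (m + 1) f x → PosY (m := m) κ ρ f V x) → IsOpen O → (∀ x, (x, f x) ∈ O) →
    ∃ G : X → Y, (∀ x, LD (m + 1) G x) ∧ (∀ x, x ∉ tsupport V → G x = f x) ∧ ∀ x, (x, G x) ∈ O

/-- COREY: maps between manifolds. -/
def S_COREY : Prop :=
  ∀ (m a : ℕ) (X Y : Type) [TopologicalSpace X] [T2Space X] [ChartedSpace (E (m + 1)) X]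
    [IsManifold (𝓡 (m + 1)) ∞ X] [TopologicalSpace Y] [T2Space Y] [ChartedSpace (E (m + 1)) Y]
    [IsManifold (𝓡 (m + 1)) ∞ Y] (κ : Y → E a) (ρ : E a → Y) (U : Set (E a)) (f : X → Y),
    Ret (m := m) κ ρ U → SettingY (m := m) f → IsCompact {x | ¬ LD (m + 1) f x} →
    (∀ x, ¬ LD (m + 1) f x → RkY (m := m) f x) →
    ∃ C : Set X, IsCompact C ∧ ∀ O : Set (X × Y), IsOpen O → (∀ x, (x, f x) ∈ O) →
      ∃ G : X → Y, (∀ x, LD (m + 1) G x) ∧ (∀ x, x ∉ C → G x = f x) ∧ ∀ x, (x, G x) ∈ O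

end Pool.Agent.L7h20.NF
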