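import Pool.Agent.L7h20.NF.Closed
import Mathlib.Topology.Homotopy.Lifting

/-!
# Project NF: closed manifolds, simply connected target
-/

set_option autoImplicit false

open Set Filter Topology Metric Function
open scoped Manifold ContDiff

noncomputable section

namespace Pool.Agent.L7h20.NF

open Pool.Agent.Y522 Pool.Agent.Y170.NA

/-- A local homeomorphism from a compact connected Hausdorff space to a simply connected Hausdorff
space is bijective. -/
theorem bij_of_sc {X Y : Type} [TopologicalSpace X] [TopologicalSpace Y] [CompactSpace X]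
    [T2Space X] [T2Space Y] [ConnectedSpace X] [SimplyConnectedSpace Y]
    [LocallyPathConnectedSpace Y] (G : X → Y) (hG : IsLocalHomeomorph G) : Bijective G := by
  have hcov : IsCoveringMap G := isLocalHomeomorph_iff_isCoveringMap.1 hG
  obtain ⟨x₀⟩ : Nonempty X := inferInstance
  obtain ⟨F, ⟨hF0, hF⟩, -⟩ := hcov.existsUnique_continuousMap_lifts (ContinuousMap.id Y) (G x₀) x₀
    rfl
  have h1 : ∀ y, G (F y) = y := fun y => congrFun hF y
  have h2 : (fun x => F (G x)) = id := by
    refine hcov.eq_of_comp_eq (F.continuous.comp hG.continuous) continuous_id ?_ x₀ hF0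
    funext x
    exact h1 (G x)
  refine ⟨fun p q hpq => ?_, fun y => ⟨F y, h1 y⟩⟩
  have h3 := congrFun h2 p
  have h4 := congrFun h2 q
  simp only [id] at h3 h4
  rw [← h3, ← h4, hpq]

/-- Closed manifolds, simply connected target: fold-free smooth maps of corank at most one are limits of
diffeomorphisms. -/
theorem closed2 (hC : S_COREY) (m : ℕ) (X Y : Type) [TopologicalSpace X] [T2Space X]
    [CompactSpace X] [ConnectedSpace X] [ChartedSpace (E (m + 1)) X]
    [IsManifold (𝓡 (m + 1)) ∞ X]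
    [TopologicalSpace Y] [T2Space Y] [CompactSpace Y] [SimplyConnectedSpace Y]
    [ChartedSpace (E (m + 1)) Y] [IsManifold (𝓡 (m + 1)) ∞ Y] (f : X → Y)
    (hf : SettingY (m := m) f) (hr : ∀ x, ¬ LD (m + 1) f x → RkY (m := m) f x)
    (O : Set (X × Y)) (hO : IsOpen O) (hfO : ∀ x, (x, f x) ∈ O) :
    ∃ Φ : Diffeomorph (𝓡 (m + 1)) (𝓡 (m + 1)) X Y ∞, ∀ x, (x, Φ x) ∈ O := by
  classical
  have : LocallyPathConnectedSpace Y := ChartedSpace.locallyPathConnectedSpace (E (m + 1)) Y
  obtain ⟨x₀⟩ : Nonempty X := inferInstance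
  obtain ⟨a, κ, hκs, hκe, hκi⟩ := exists_embedding_euclidean_of_compact (I := 𝓡 (m + 1)) (M := Y)
  obtain ⟨U, ρ, hU, hUr, hρ, hρκ⟩ := Pool.Agent.L7h17.AH.s_TUB (m + 1) Y (E a) κ
    ⟨hκs, hκe.injective, hκi⟩ ⟨f x₀⟩
  have hR : Ret (m := m) κ ρ U := ⟨hU, fun y => hUr (mem_range_self y), hκs,
    fun u hu => (hρ u hu).contMDiffAt (hU.mem_nhds hu), hρκ⟩
  have hc : IsCompact {x : X | ¬ LD (m + 1) f x} := by
    refine IsClosed.isCompact ?_
    rw [← isOpen_compl_iff, isOpen_iff_mem_nhds]
    intro x hx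
    have hx' : LD (m + 1) f x := by
      by_contra h
      exact hx h
    filter_upwards [hx'.eventually] with y hy
    exact fun h => h hy
  obtain ⟨C, -, hCO⟩ := hC m a X Y κ ρ U f hR hf hc hr
  obtain ⟨G, hG1, -, hG3⟩ := hCO O hO hfO
  have hloc : IsLocalDiffeomorph (𝓡 (m + 1)) (𝓡 (m + 1)) ∞ G := hG1
  have hbij : Bijective G := bij_of_sc G hloc.isLocalHomeomorph
  exact ⟨hloc.diffeomorphOfBijective hbij, hG3⟩

end Pool.Agent.L7h20.NF
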