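import Pool.Agent.L7h20.NF.Closed2

/-!
# Project NF: fold-free maps in explicit terms
-/

set_option autoImplicit false

open Set Filter Topology Metric Function
open scoped Manifold ContDiff

noncomputable section

namespace Pool.Agent.L7h20.NF

open Pool.Agent.Y522 Pool.Agent.Y170.NA

section

variable {m : ℕ} {X Y : Type} [TopologicalSpace X] [ChartedSpace (E (m + 1)) X]
  [TopologicalSpace Y] [ChartedSpace (E (m + 1)) Y]

/-- coordinates centred at a point -/
theorem exists_param [IsManifold (𝓡 (m + 1)) ∞ X] (x : X) :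
    ∃ A : E (m + 1) → X, A 0 = x ∧ LD (m + 1) A 0 := by
  have h1 : LD (m + 1) (chartAt (E (m + 1)) x : X → E (m + 1)) x :=
    Pool.Agent.Y641.SH.LD_chart x
  obtain ⟨p, hp1, hp2, -, -⟩ := h1.exists_inverse
  refine ⟨fun z => p (z + chartAt (E (m + 1)) x x), ?_, ?_⟩
  · change p (0 + chartAt (E (m + 1)) x x) = x
    rw [zero_add]
    exact hp2
  · refine LD.comp_fun ?_ (LD_add_const _ _)
    rw [zero_add]
    exact hp1

/-- the setting from the conditions at the points -/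
theorem setting_of (f : X → Y) (hs : ContMDiff (𝓡 (m + 1)) (𝓡 (m + 1)) ∞ f)
    (hd : Dense {x | LD (m + 1) f x})
    (hn : ∀ x, ∃ (A : E (m + 1) → X) (B : Y → E (m + 1)), A 0 = x ∧ LD (m + 1) A 0 ∧
      LD (m + 1) B (f x) ∧ ∀ᶠ z in 𝓝 (0 : E (m + 1)),
        0 ≤ (fderiv ℝ (fun w => B (f (A w))) z).det) : SettingY (m := m) f := by
  refine ⟨hs, hd, fun x => ?_⟩
  obtain ⟨A, B, h1, h2, h3, h4⟩ := hn x
  refine ⟨A, B, 0, h1, h2, ?_, h4⟩
  rw [h1]
  exact h3

/-- a local diffeomorphism has no fold -/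
theorem noFold_of_ld [IsManifold (𝓡 (m + 1)) ∞ X] (f : X → Y) (x : X) (h : LD (m + 1) f x) :
    ∃ (A : E (m + 1) → X) (B : Y → E (m + 1)), A 0 = x ∧ LD (m + 1) A 0 ∧
      LD (m + 1) B (f x) ∧ ∀ᶠ z in 𝓝 (0 : E (m + 1)),
        0 ≤ (fderiv ℝ (fun w => B (f (A w))) z).det := by
  obtain ⟨A, hA0, hA⟩ := exists_param (m := m) x
  have h1 : LD (m + 1) (fun z => f (A z)) 0 := by
    refine LD.comp_fun ?_ hA
    rw [hA0]
    exact h
  obtain ⟨B, hB1, hB2, hB3, -⟩ := h1.exists_inverse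
  rw [hA0] at hB1
  refine ⟨A, B, hA0, hA, hB1, ?_⟩
  filter_upwards [hB3.eventually_nhds] with z hz
  have h2 : (fun w => B (f (A w))) =ᶠ[𝓝 z] id := hz
  rw [h2.fderiv_eq, fderiv_id]
  change 0 ≤ LinearMap.det (ContinuousLinearMap.id ℝ (E (m + 1))).toLinearMap
  rw [ContinuousLinearMap.coe_id, LinearMap.det_id]
  norm_num

/-- the rank of a local diffeomorphism -/
theorem rk_of_ld [IsManifold (𝓡 (m + 1)) ∞ X] [IsManifold (𝓡 (m + 1)) ∞ Y] (f : X → Y) (x : X)
    (h : LD (m + 1) f x) : RkY (m := m) f x := by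
  let D : E (m + 1) →L[ℝ] E (m + 1) := mfderiv (𝓡 (m + 1)) (𝓡 (m + 1)) f x
  have hD : Injective D := h.mfderiv_injective
  change m ≤ Module.finrank ℝ (LinearMap.range D.toLinearMap)
  rw [LinearMap.finrank_range_of_inj hD, finrank_euclideanSpace, Fintype.card_fin]
  omega

end

end Pool.Agent.L7h20.NF
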