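import Pool.Agent.Y47.SH.NBox
import Pool.Agent.Y870.SH.Glob

/-!
# Project NF: smooth maps of corank at most one without folds (statements)

THEOREM (MP_126a0d_gt, VERY FAMOUS, exotic 4-balls). Let `M` be a compact connected smooth 4-manifold with
boundary, `N` a smooth 4-ball, immersed in `R^4` by `j`, `f : M → N` a smooth map, a local
diffeomorphism at the boundary points, of rank at least `3` at the interior points, with a dense set of
regular points, such that near every interior point the Jacobian of `f` does not change its sign (no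
folds). (`f` is NOT assumed to be injective: it may collapse arcs.) Then `f` is a limit of
diffeomorphisms `M → N`. (Eliashberg: with folds such maps exist on every `M`.)

## PROOF (for `F = j ∘ f` on the interior `X` of `M`, `F : X → E (m + 1)`; `Σ` = the set of the points at
which `F` is not a local diffeomorphism, compact)

Idea: find a smooth `V : X → E (m + 1)` with compact support such that the derivative of the Jacobian of
`F + ε V` at `ε = 0` is positive on `Σ`. Then `G = F + ε V` is a local diffeomorphism for small `ε > 0`.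

* Boxes: coordinates `A` in `X`, `L` linear in the target, `L (F (A z)) = (h z, tl z + b)` with
  `∂h/∂z₀ ≥ 0`. The leaf of the box is `{A (t e0)}`.
* `Gd` = the points `x` at which some smooth `V` with compact support is positive (`Pos F V x`) which is
  nonnegative on `Σ` (`NN F V`). PROP: if `x = A 0` is the centre of a box and some OTHER point
  `A (t₁ e0)` of the leaf lies in `Gd` or outside `Σ`, then `x ∈ Gd`: take `C V₁ + σ L⁻¹ e0` with
  `σ = g (z₀) χ (tl z)`, `g' > 0` at `0`, `g' < 0` only near `t₁`.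
* So if `x ∈ Σ \ Gd` the whole leaf is in `Σ \ Gd`, `F` is constant on it, the tangent space of the image is
  constant (h (t', x) - h (t, x) ≥ 0 has a minimum at x = 0). With `ν` the conormal of the image at `x`,
  `K = {q ∈ Σ \ Gd | F q = F x, ν ∘ DF_q = 0}` is compact and contains the leaves of its boxes (LEAF).
* CIRC: such a `K` does not exist: near `K` the sets `K' = {P F = x₀}` are compact and contain the
  leaves of their boxes; by density some `K'` contains a regular point `q₀`; now the set of `q ∈ K'` for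
  which there is `φ : X → ℝ` smooth, with derivative `≥ 0` along the leaves on `K'`, `> 0` at `q`, is open
  and closed in `K'` (PROP again) and contains `q₀` (`φ` = a coordinate of `F`, LEMMA VF); a finite sum
  `Ψ` is strictly increasing along all the leaves in this compact set, a contradiction at the
  maximum of `Ψ` (MAX).
-/

set_option autoImplicit false

open Set Filter Topology Metric Function
open scoped Manifold ContDiff

noncomputable section

namespace Pool.Agent.L7h20.NF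

open Pool.Agent.Y522

section defs

variable {m : ℕ} {X : Type} [TopologicalSpace X] [ChartedSpace (E (m + 1)) X]

/-- the derivative of `F` in the coordinates `A` of the domain and `L` of the target -/
def dF (F : X → E (m + 1)) (A : E (m + 1) → X) (L : E (m + 1) ≃L[ℝ] E (m + 1)) (z : E (m + 1)) :
    E (m + 1) →L[ℝ] E (m + 1) := fderiv ℝ (fun w => L (F (A w))) z

/-- the Jacobian of `F` in the coordinates `A` and `L` -/
def jac (F : X → E (m + 1)) (A : E (m + 1) → X) (L : E (m + 1) ≃L[ℝ] E (m + 1))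
    (z : E (m + 1)) : ℝ := (dF F A L z).det

/-- the derivative of the determinant at `P` in the direction `Q` -/
def dd (P Q : E (m + 1) →L[ℝ] E (m + 1)) : ℝ :=
  fderiv ℝ (fun T : E (m + 1) →L[ℝ] E (m + 1) => T.det) P Q

/-- the derivative of the Jacobian of `F + ε V` at `ε = 0` in the coordinates `A` and `L` -/
def tau (F V : X → E (m + 1)) (A : E (m + 1) → X) (L : E (m + 1) ≃L[ℝ] E (m + 1))
    (z : E (m + 1)) : ℝ := dd (dF F A L z) (dF V A L z)

/-- `A`, `L` are coordinates near `A z` in which the Jacobian of `F` is nonnegative -/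
structure Co (F : X → E (m + 1)) (A : E (m + 1) → X) (L : E (m + 1) ≃L[ℝ] E (m + 1))
    (z : E (m + 1)) : Prop where
  ld : LD (m + 1) A z
  nn : ∀ᶠ w in 𝓝 z, 0 ≤ jac F A L w

/-- in direction `V` the Jacobian increases at `x` -/
def Pos (F V : X → E (m + 1)) (x : X) : Prop :=
  ∃ (A : E (m + 1) → X) (L : E (m + 1) ≃L[ℝ] E (m + 1)) (z : E (m + 1)),
    A z = x ∧ Co F A L z ∧ 0 < tau F V A L z

/-- in direction `V` the Jacobian does not decrease at `x` -/
def NN (F V : X → E (m + 1)) (x : X) : Prop :=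
  ∃ (A : E (m + 1) → X) (L : E (m + 1) ≃L[ℝ] E (m + 1)) (z : E (m + 1)),
    A z = x ∧ Co F A L z ∧ 0 ≤ tau F V A L z

/-- smooth maps -/
def Sm (V : X → E (m + 1)) : Prop := ContMDiff (𝓡 (m + 1)) (𝓡 (m + 1)) ∞ V

/-- `F` is smooth, regular on a dense set, and its Jacobian does not change its sign locally -/
structure Setting (F : X → E (m + 1)) : Prop where
  smooth : Sm F
  dense : Dense {x | LD (m + 1) F x}
  sign : ∀ x, ∃ (A : E (m + 1) → X) (L : E (m + 1) ≃L[ℝ] E (m + 1)) (z : E (m + 1)),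
    A z = x ∧ Co F A L z

/-- `P ∘ F` is a submersion at `x` -/
def Sub (P : E (m + 1) →L[ℝ] E m) (F : X → E (m + 1)) (x : X) : Prop :=
  Surjective (mfderiv (𝓡 (m + 1)) (𝓡 m) (fun y => P (F y)) x)

/-- A box: `L (F (A z)) = (h z, tl z + b)` with `∂h/∂z₀ ≥ 0`; `tl ∘ L` is a positive multiple of `P`. -/
structure Bx (F : X → E (m + 1)) (P : E (m + 1) →L[ℝ] E m) (A : E (m + 1) → X)
    (L : E (m + 1) ≃L[ℝ] E (m + 1)) (b : E m) : Prop where
  inj : InjOn A (box m 1 1)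
  ld : ∀ z ∈ box m 1 1, LD (m + 1) A z
  tail : ∀ z ∈ box m 1 1, tl (L (F (A z))) = tl z + b
  par : ∃ c : ℝ, 0 < c ∧ ∀ v, tl (L v) = c • P v
  nn : ∀ z ∈ box m 1 1, ∀ᶠ w in 𝓝 z, 0 ≤ jac F A L w

/-- `K` is compact, `P ∘ F` is constant on `K` and in every neighbourhood of every point `q` of `K` there is
a box with centre `q` whose leaf is contained in `K` -/
structure Leafy (F : X → E (m + 1)) (P : E (m + 1) →L[ℝ] E m) (K : Set X) : Prop where
  cpt : IsCompact K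
  const : ∃ c : E m, ∀ q ∈ K, P (F q) = c
  leaf : ∀ q ∈ K, ∀ W ∈ 𝓝 q, ∃ (A : E (m + 1) → X) (L : E (m + 1) ≃L[ℝ] E (m + 1)) (b : E m),
    A 0 = q ∧ Bx F P A L b ∧ (∀ z ∈ box m 1 1, A z ∈ W) ∧ ∀ t : ℝ, |t| ≤ 1 → A (t • e0) ∈ K

/-- the good points -/
def Gd (F : X → E (m + 1)) : Set X :=
  {x | ∃ V : X → E (m + 1), Sm V ∧ HasCompactSupport V ∧
    (∀ y, ¬ LD (m + 1) F y → NN F V y) ∧ Pos F V x}

end defs

/-! ## Statements -/

/-- DET1 (linear algebra): the determinant is smooth; formulas for `dd`. -/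
def S_DET1 : Prop :=
  ∀ m : ℕ,
    ContDiff ℝ ∞ (fun T : E (m + 1) →L[ℝ] E (m + 1) => T.det) ∧
    (∀ P Q A B : E (m + 1) →L[ℝ] E (m + 1),
      dd (A.comp (P.comp B)) (A.comp (Q.comp B)) = A.det * B.det * dd P Q) ∧
    (∀ (P : E (m + 1) →L[ℝ] E (m + 1)) (s : E (m + 1) →L[ℝ] ℝ) (n : E (m + 1)),
      dd P ((s.comp P).smulRight n) = s n * P.det) ∧
    (∀ (P : E (m + 1) →L[ℝ] E (m + 1)) (s : E (m + 1) →L[ℝ] ℝ), (∀ v, tl (P v) = tl v) →
      P.det = (P e0) 0 ∧ dd P (s.smulRight e0) = s e0)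

/-- DET2: if `det P ≥ 0` near a point and `dd P Q > 0` at the point, then `det (P + ε Q) > 0` for
small `ε > 0` at the points nearby (mean value theorem in `ε`; `dd (P + ε Q) Q` is continuous); at the points
with `det P ≠ 0` by continuity. -/
def S_DET2 : Prop :=
  ∀ (m : ℕ) (P Q : E (m + 1) → E (m + 1) →L[ℝ] E (m + 1)) (z : E (m + 1)),
    ContinuousAt P z → ContinuousAt Q z →
    ((∀ᶠ w in 𝓝 z, 0 ≤ (P w).det) → 0 < dd (P z) (Q z) →
      ∃ η : ℝ, 0 < η ∧ ∀ᶠ w in 𝓝 z, ∀ ε : ℝ, 0 < ε → ε < η → 0 < (P w + ε • Q w).det) ∧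
    ((P z).det ≠ 0 →
      ∃ η : ℝ, 0 < η ∧ ∀ᶠ w in 𝓝 z, ∀ ε : ℝ, 0 < ε → ε < η → (P w + ε • Q w).det ≠ 0)

/-- REG: in coordinates, local diffeomorphism means nonzero Jacobian; `dF` is smooth. -/
def S_REG : Prop :=
  ∀ (m : ℕ) (X : Type) [TopologicalSpace X] [ChartedSpace (E (m + 1)) X]
    [IsManifold (𝓡 (m + 1)) ∞ X] (F : X → E (m + 1)) (A : E (m + 1) → X)
    (L : E (m + 1) ≃L[ℝ] E (m + 1)) (z : E (m + 1)), Sm F → LD (m + 1) A z →
    (LD (m + 1) F (A z) ↔ jac F A L z ≠ 0) ∧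
    (∀ᶠ w in 𝓝 z, ContDiffAt ℝ ∞ (fun w => F (A w)) w) ∧ ContinuousAt (dF F A L) z

/-- IND: the sign of `tau` does not depend on the coordinates (by density of the regular points). Proof.
`A' = A ∘ ψ` near `z'`, `ψ` a local diffeomorphism; `dF F A' L' w = Λ ∘ dF F A L (ψ w) ∘ Dψ w` with
`Λ = L' ∘ L⁻¹`; `c = det Λ * det (Dψ z')`; it is positive: the sign of `det (Dψ w)` is constant near `z'`,
and there is a regular point `A' w` nearby, where both Jacobians are positive. -/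
def S_IND : Prop :=
  ∀ (m : ℕ) (X : Type) [TopologicalSpace X] [ChartedSpace (E (m + 1)) X]
    [IsManifold (𝓡 (m + 1)) ∞ X] (F : X → E (m + 1)), Setting F →
    ∀ (A : E (m + 1) → X) (L : E (m + 1) ≃L[ℝ] E (m + 1)) (z : E (m + 1))
      (A' : E (m + 1) → X) (L' : E (m + 1) ≃L[ℝ] E (m + 1)) (z' : E (m + 1)),
      A z = A' z' → Co F A L z → Co F A' L' z' →
      ∃ c : ℝ, 0 < c ∧ ∀ V : X → E (m + 1), Sm V → tau F V A' L' z' = c * tau F V A L z

/-- CONE: consequences of IND: cones, openness. -/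
def S_CONE : Prop :=
  ∀ (m : ℕ) (X : Type) [TopologicalSpace X] [ChartedSpace (E (m + 1)) X]
    [IsManifold (𝓡 (m + 1)) ∞ X] (F : X → E (m + 1)), Setting F →
    (∀ V W : X → E (m + 1), ∀ x, Sm V → Sm W → NN F V x → NN F W x → NN F (fun y => V y + W y) x) ∧
    (∀ V W : X → E (m + 1), ∀ x, Sm V → Sm W → Pos F V x → NN F W x →
      Pos F (fun y => V y + W y) x) ∧
    (∀ (V : X → E (m + 1)) (x) (C : ℝ), Sm V → 0 ≤ C → NN F V x → NN F (fun y => C • V y) x) ∧
    (∀ (V : X → E (m + 1)) (x) (C : ℝ), Sm V → 0 < C → Pos F V x → Pos F (fun y => C • V y) x) ∧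
    (∀ V : X → E (m + 1), Sm V → IsOpen {x | Pos F V x}) ∧
    (∀ (V : X → E (m + 1)) (x), Pos F V x → NN F V x) ∧
    (∀ x, NN F (fun _ => 0) x) ∧
    (∀ (A : E (m + 1) → X) (L : E (m + 1) ≃L[ℝ] E (m + 1)) (z : E (m + 1)) (V : X → E (m + 1)),
      Sm V → Co F A L z → (NN F V (A z) ↔ 0 ≤ tau F V A L z) ∧ (Pos F V (A z) ↔ 0 < tau F V A L z)) ∧
    (∀ (s : E (m + 1) →L[ℝ] ℝ) (n : E (m + 1)), s n = 1 → ∀ x, NN F (fun y => s (F y) • n) x ∧
      (LD (m + 1) F x → Pos F (fun y => s (F y) • n) x))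

/-- BOX: boxes exist in every neighbourhood of a point at which `P ∘ F` is a submersion. Proof: as
`Pool.Agent.Y47.SH.nbox` (with a smaller radius); the sign of the Jacobian is constant near the point by
the field `sign`, if it is negative `L` is composed with the reflection
`Pool.Agent.Y47.SH.exists_refl`. -/
def S_BOX : Prop :=
  ∀ (m : ℕ) (X : Type) [TopologicalSpace X] [ChartedSpace (E (m + 1)) X]
    [IsManifold (𝓡 (m + 1)) ∞ X] (F : X → E (m + 1)), Setting F →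
    ∀ (P : E (m + 1) →L[ℝ] E m) (x : X), Sub P F x → ∀ W ∈ 𝓝 x,
      ∃ (A : E (m + 1) → X) (L : E (m + 1) ≃L[ℝ] E (m + 1)) (b : E m),
        A 0 = x ∧ Bx F P A L b ∧ ∀ z ∈ box m 1 1, A z ∈ W

/-- BXJ: formulas in a box. -/
def S_BXJ : Prop :=
  ∀ (m : ℕ) (X : Type) [TopologicalSpace X] [ChartedSpace (E (m + 1)) X]
    [IsManifold (𝓡 (m + 1)) ∞ X] (F : X → E (m + 1)) (P : E (m + 1) →L[ℝ] E m)
    (A : E (m + 1) → X) (L : E (m + 1) ≃L[ℝ] E (m + 1)) (b : E m), Sm F → Bx F P A L b →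
    (∀ z ∈ box m 1 1, Co F A L z) ∧
    (∀ z ∈ box m 1 1, ∀ v, tl (dF F A L z v) = tl v) ∧
    (∀ z ∈ box m 1 1, jac F A L z = (dF F A L z e0) 0) ∧
    (∀ z ∈ box m 1 1, ∀ z' ∈ box m 1 1, tl z = tl z' → z 0 ≤ z' 0 →
      (L (F (A z))) 0 ≤ (L (F (A z'))) 0) ∧
    (∀ σ : X → ℝ, ContMDiff (𝓡 (m + 1)) 𝓘(ℝ, ℝ) ∞ σ → ∀ z ∈ box m 1 1,
      tau F (fun x => σ x • L.symm e0) A L z = fderiv ℝ (fun w => σ (A w)) z e0)

/-- BUMP: transport of a bump function to `X`. -/
def S_BUMP : Prop :=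
  ∀ (m : ℕ) (X : Type) [TopologicalSpace X] [T2Space X] [ChartedSpace (E (m + 1)) X]
    [IsManifold (𝓡 (m + 1)) ∞ X] (A : E (m + 1) → X), InjOn A (box m 1 1) →
    (∀ z ∈ box m 1 1, LD (m + 1) A z) → ∀ θ : E (m + 1) → ℝ, ContDiff ℝ ∞ θ → ∀ ρ : ℝ, ρ < 1 →
    (∀ z, z ∉ box m ρ ρ → θ z = 0) →
    ∃ σ : X → ℝ, ContMDiff (𝓡 (m + 1)) 𝓘(ℝ, ℝ) ∞ σ ∧ HasCompactSupport σ ∧
      (∀ z ∈ box m 1 1, σ (A z) = θ z) ∧ ∀ x, x ∉ A '' box m 1 1 → σ x = 0

/-- ONED: the bump function of one variable. -/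
def S_ONED : Prop :=
  ∀ t s : ℝ, t ≠ 0 → |t| < 1 → 0 < s → ∃ (g : ℝ → ℝ) (ρ : ℝ), ContDiff ℝ ∞ g ∧ 0 < ρ ∧ ρ < 1 ∧
    0 < deriv g 0 ∧ (∀ u, s ≤ |u - t| → 0 ≤ deriv g u) ∧ ∀ u, ρ ≤ |u| → g u = 0

/-- PROP: propagation in a box. `θ z = g (z 0) * χ (tl z)`, `χ` a bump function (`ContDiffBump`) at `0` with
small support; `∂θ/∂z₀ < 0` only on a compact set `Q` near `t e0` with `A '' Q ⊆ N`; on the compact set
`Q ∩ A⁻¹ S` the function `tau F V A L` is continuous and positive. -/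
def S_PROP : Prop :=
  ∀ (m : ℕ) (X : Type) [TopologicalSpace X] [T2Space X] [ChartedSpace (E (m + 1)) X]
    [IsManifold (𝓡 (m + 1)) ∞ X] (F : X → E (m + 1)) (P : E (m + 1) →L[ℝ] E m)
    (A : E (m + 1) → X) (L : E (m + 1) ≃L[ℝ] E (m + 1)) (b : E m) (S N : Set X)
    (V : X → E (m + 1)) (t : ℝ), Setting F → Bx F P A L b → IsClosed S → A 0 ∈ S → Sm V →
    (∀ x ∈ S, NN F V x) → IsOpen N → (∀ x ∈ S, x ∈ N → Pos F V x) → t ≠ 0 → |t| < 1 →
    A (t • e0) ∈ N → ∃ (C : ℝ) (σ : X → ℝ), 0 ≤ C ∧ ContMDiff (𝓡 (m + 1)) 𝓘(ℝ, ℝ) ∞ σ ∧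
      HasCompactSupport σ ∧ (∀ x ∈ S, NN F (fun y => C • V y + σ y • L.symm e0) x) ∧
      Pos F (fun y => C • V y + σ y • L.symm e0) (A 0)

/-- MAX: a leafy set contains no regular point. Proof. All the vectors `L⁻¹ e0` are multiples of one
`n ∈ ker P`, `n ≠ 0` (`P` is onto, the kernel has dimension one); `G' = {q ∈ K | ∃ φ smooth,
NN F (φ • n) on K, Pos F (φ • n) q}` is open in `K` (CONE), contains `q₀` (last clause of CONE), is closed in `K`:
for `q` in the closure and a box at `q` with leaf in `K` the points of `K` near `q` lie on the leaf (`P ∘ F` is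
constant on `K`), so PROP applies. Finite sum: `Ψ` with `Pos F (Ψ • n)` on the compact set `G'`; at a
maximum `q₁` of `Ψ` on `G'` the derivative of `Ψ` along the leaf vanishes, contradiction (BXJ). -/
def S_MAX : Prop :=
  ∀ (m : ℕ) (X : Type) [TopologicalSpace X] [T2Space X] [ChartedSpace (E (m + 1)) X]
    [IsManifold (𝓡 (m + 1)) ∞ X] (F : X → E (m + 1)) (P : E (m + 1) →L[ℝ] E m) (K : Set X)
    (q : X), Setting F → Leafy F P K → q ∈ K → ¬ LD (m + 1) F q

/-- CIRC: no leafy sets. Proof. `K` is covered by the interiors of the boxes; `W` open with `K ⊆ W`,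
`closure W` compact, contained in the union of the boxes and in the open set `{x | Sub P F x}`; then
`x ∈ closure W`, `P (F x) = c` implies `x ∈ K`; so for `x₀` near `c` the set
`K' = {x ∈ closure W | P (F x) = x₀}` is contained in `W`, and leafy by BOX; by density choose `x₀` such
that `K'` contains a regular point; MAX. -/
def S_CIRC : Prop :=
  ∀ (m : ℕ) (X : Type) [TopologicalSpace X] [T2Space X] [ChartedSpace (E (m + 1)) X]
    [IsManifold (𝓡 (m + 1)) ∞ X] (F : X → E (m + 1)) (P : E (m + 1) →L[ℝ] E m) (K : Set X),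
    Setting F → Leafy F P K → (∀ q ∈ K, Sub P F q) → K = ∅

/-- the rank of `F` is at least `m` -/
def Rk {m : ℕ} {X : Type} [TopologicalSpace X] [ChartedSpace (E (m + 1)) X] (F : X → E (m + 1))
    (x : X) : Prop :=
  m ≤ Module.finrank ℝ (LinearMap.range
    (mfderiv (𝓡 (m + 1)) (𝓡 (m + 1)) F x).toLinearMap)

/-- LEAF: a point which is not good lies in a leafy set. Proof. `H` = the range of `DF_x` (dimension `m`
by REG), `ν ≠ 0` a functional with kernel `H`, `P` from `Pool.Agent.Y170.NA.exists_proj` (onto on `H`);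
`K = {q | ¬ LD F q, q ∉ Gd F, F q = F x, ν ∘ DF_q = 0}`. -/
def S_LEAF : Prop :=
  ∀ (m : ℕ) (X : Type) [TopologicalSpace X] [T2Space X] [ChartedSpace (E (m + 1)) X]
    [IsManifold (𝓡 (m + 1)) ∞ X] (F : X → E (m + 1)) (x : X), Setting F →
    IsCompact {x | ¬ LD (m + 1) F x} → (∀ x, ¬ LD (m + 1) F x → Rk F x) →
    ¬ LD (m + 1) F x → x ∉ Gd F →
    ∃ (P : E (m + 1) →L[ℝ] E m) (K : Set X), x ∈ K ∧ Leafy F P K ∧ ∀ q ∈ K, Sub P F q

/-- SUM: a finite sum. -/
def S_SUM : Prop :=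
  ∀ (m : ℕ) (X : Type) [TopologicalSpace X] [T2Space X] [ChartedSpace (E (m + 1)) X]
    [IsManifold (𝓡 (m + 1)) ∞ X] (F : X → E (m + 1)), Setting F →
    IsCompact {x | ¬ LD (m + 1) F x} → (∀ x, ¬ LD (m + 1) F x → x ∈ Gd F) →
    ∃ V : X → E (m + 1), Sm V ∧ HasCompactSupport V ∧ ∀ x, ¬ LD (m + 1) F x → Pos F V x

/-- FIN: `G = F + ε V`. For every point of the compact set `tsupport V` a neighbourhood and an `η` from
DET2. -/
def S_FIN : Prop :=
  ∀ (m : ℕ) (X : Type) [TopologicalSpace X] [T2Space X] [ChartedSpace (E (m + 1)) X]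
    [IsManifold (𝓡 (m + 1)) ∞ X] (F V : X → E (m + 1)) (O : Set (X × E (m + 1))), Setting F →
    Sm V → HasCompactSupport V → (∀ x, ¬ LD (m + 1) F x → Pos F V x) → IsOpen O →
    (∀ x, (x, F x) ∈ O) →
    ∃ G : X → E (m + 1), (∀ x, LD (m + 1) G x) ∧ (∀ x, x ∉ tsupport V → G x = F x) ∧
      ∀ x, (x, G x) ∈ O

/-- CORE: the conclusion for maps to `E (m + 1)` (from LEAF, CIRC, SUM, FIN). -/
def S_CORE : Prop :=
  ∀ (m : ℕ) (X : Type) [TopologicalSpace X] [T2Space X] [ChartedSpace (E (m + 1)) X]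
    [IsManifold (𝓡 (m + 1)) ∞ X] (F : X → E (m + 1)), Setting F →
    IsCompact {x | ¬ LD (m + 1) F x} → (∀ x, ¬ LD (m + 1) F x → Rk F x) →
    ∃ C : Set X, IsCompact C ∧ ∀ O : Set (X × E (m + 1)), IsOpen O → (∀ x, (x, F x) ∈ O) →
      ∃ G : X → E (m + 1), (∀ x, LD (m + 1) G x) ∧ (∀ x, x ∉ C → G x = F x) ∧ ∀ x, (x, G x) ∈ O

theorem core (h1 : S_LEAF) (h2 : S_CIRC) (h3 : S_SUM) (h4 : S_FIN) : S_CORE := by
  intro m X _ _ _ _ F hF hc hr
  obtain ⟨V, hV1, hV2, hV3⟩ := h3 m X F hF hc (by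
    intro x hx
    by_contra hg
    obtain ⟨P, K, hxK, hK, hs⟩ := h1 m X F x hF hc hr hx hg
    have := h2 m X F P K hF hK hs
    rw [this] at hxK
    exact hxK)
  exact ⟨tsupport V, hV2, fun O hO hFO => h4 m X F V O hF hV1 hV2 hV3 hO hFO⟩

/-- LIFT: lifting through a local diffeomorphism. Proof. `C` is covered by finitely many open `A i` with
`F₀ (A i) ⊆ B i`, `jj` injective on the open set `B i`; shrink to `A' i`, `closure (A' i) ⊆ A i`;
`U = {(x, y) ∈ O' | x ∈ ⋃ A' i, ∀ i, x ∈ closure (A' i) → y ∈ B i}` is open, `(x, y) ↦ (x, jj y)` is injective on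
`U`; `O = image of U ∪ (Cᶜ ×ˢ univ)`. -/
def S_LIFT : Prop :=
  ∀ (m : ℕ) (X Y : Type) [TopologicalSpace X] [T2Space X] [ChartedSpace (E (m + 1)) X]
    [IsManifold (𝓡 (m + 1)) ∞ X] [TopologicalSpace Y] [T2Space Y] [ChartedSpace (E (m + 1)) Y]
    [IsManifold (𝓡 (m + 1)) ∞ Y] (jj : Y → E (m + 1)) (F₀ : X → Y) (C : Set X) (O' : Set (X × Y)),
    (∀ y, LD (m + 1) jj y) → Continuous F₀ → IsCompact C → IsOpen O' → (∀ x, (x, F₀ x) ∈ O') →
    ∃ O : Set (X × E (m + 1)), IsOpen O ∧ (∀ x, (x, jj (F₀ x)) ∈ O) ∧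
      ∀ G : X → E (m + 1), (∀ x, (x, G x) ∈ O) → (∀ x, LD (m + 1) G x) →
        (∀ x, x ∉ C → G x = jj (F₀ x)) →
        ∃ F' : X → Y, (∀ x, LD (m + 1) F' x) ∧ (∀ x, jj (F' x) = G x) ∧
          (∀ x, x ∉ C → F' x = F₀ x) ∧ ∀ x, (x, F' x) ∈ O'

end Pool.Agent.L7h20.NF
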