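import Pool.Agent.L7h20.NF.Corey
import Pool.Agent.L7h20.NF.Closed2
import Pool.Agent.L7h20.NF.Fin
import Pool.Agent.L7h82.NF.Det
import Pool.Agent.L7h82.NF.BoxN
import Pool.Agent.L7h58.NF.Reg
import Pool.Agent.L7h58.NF.Ind
import Pool.Agent.L7h58.NF.Cone
import Pool.Agent.L7h8.NF.BXJ
import Pool.Agent.L7h8.NF.BUMP
import Pool.Agent.L7h8.NF.DET3
import Pool.Agent.L7h8.NF.FINY
import Pool.Agent.L7h81.NF.Oned
import Pool.Agent.L7h81.NF.Circ
import Pool.Agent.L7h38.NF.Prop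
import Pool.Agent.L7h38.NF.Max
import Pool.Agent.L7h38.NF.Sumy
import Pool.Agent.L7h13.NF.Leaf2
import Pool.Agent.L7h21.NF.Indy
import Pool.Agent.L7h21.NF.Coney
import Pool.Agent.L7h97.NF.Xfer
import Pool.Agent.L7h97.NF.Propy

/-!
# Project NF: all parts together

Fold-free smooth maps of corank one between manifolds of the same dimension can be perturbed to local
diffeomorphisms. Parts by helper8, helper13, helper21, helper38, helper45, helper58, helper81, helper82, helper97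
and helper20.
-/

set_option autoImplicit false

noncomputable section

namespace Pool.Agent.L7h20.NF

theorem s_COREY : S_COREY := by
  have h1 := Pool.Agent.L7h82.NF.s_DET1
  have h2 := Pool.Agent.L7h58.NF.s_REG
  have h3 := Pool.Agent.L7h58.NF.s_IND h1 h2
  have h4 := Pool.Agent.L7h58.NF.s_CONE h1 h2 h3
  have h5 := Pool.Agent.L7h8.NF.s_BXJ h1
  have h6 := Pool.Agent.L7h8.NF.s_BUMP
  have h7 := Pool.Agent.L7h8.NF.s_DET3 h1
  have h8 := Pool.Agent.L7h8.NF.s_FINY h7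
  have h9 := Pool.Agent.L7h81.NF.s_ONED
  have h10 := Pool.Agent.L7h38.NF.s_PROP h6 h9 h5 h4
  have h11 := Pool.Agent.L7h38.NF.s_MAX h10 h5 h4
  have h12 := Pool.Agent.L7h82.NF.s_BOX
  have h13 := Pool.Agent.L7h81.NF.s_CIRC h11 h12
  have h14 := Pool.Agent.L7h13.NF.s_LEAF2 h12 h5 h2
  have h15 := Pool.Agent.L7h21.NF.s_INDY h1
  have h16 := Pool.Agent.L7h21.NF.s_CONEY h1 h15
  have h17 := Pool.Agent.L7h38.NF.s_SUMY h16
  have h18 := Pool.Agent.L7h97.NF.s_XFER h1 h4 h16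
  have h19 := Pool.Agent.L7h97.NF.s_PROPY h10 h1 h4 h16
  exact corey h18 h19 h14 h13 h17 h8 h16

end Pool.Agent.L7h20.NF
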