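import Pool.Agent.L7h20.NF.Stm3
import Pool.Agent.L7h17.AH.Tub
import Pool.Agent.Y170.NA.Pre

/-!
# Project NF: closed manifolds
-/

set_option autoImplicit false

open Set Filter Topology Metric Function
open scoped Manifold ContDiff

noncomputable section

namespace Pool.Agent.L7h20.NF

open Pool.Agent.Y522 Pool.Agent.Y170.NA

/-- A local homeomorphism from a compact Hausdorff space to a connected Hausdorff space with a
one-point fibre is bijective. -/
theorem bij_of_fibre {X Y : Type} [TopologicalSpace X] [TopologicalSpace Y] [CompactSpace X]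
    [T2Space X] [T2Space Y] [PreconnectedSpace Y] (G : X → Y) (hc : Continuous G)
    (ho : IsOpenMap G) (hi : ∀ x, ∃ W ∈ 𝓝 x, InjOn G W) (x₀ : X)
    (h0 : ∀ x, G x = G x₀ → x = x₀) : Bijective G := by
  have hcl : IsClosedMap G := hc.isClosedMap
  have hsurj : Surjective G := by
    have h1 : IsClopen (range G) := ⟨hcl.isClosed_range, ho.isOpen_range⟩
    have h2 : range G = univ := h1.eq_univ ⟨G x₀, mem_range_self _⟩
    exact range_eq_univ.1 h2
  refine ⟨?_, hsurj⟩
  let S : Set Y := {y | ∀ p q, G p = y → G q = y → p = q}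
  have hSc : IsClosed S := by
    rw [← isOpen_compl_iff, isOpen_iff_mem_nhds]
    intro y hy
    have hy' : ∃ p q, G p = y ∧ G q = y ∧ p ≠ q := by
      by_contra hcon
      apply hy
      intro p q hp hq
      by_contra hpq
      exact hcon ⟨p, q, hp, hq, hpq⟩
    obtain ⟨p, q, hp, hq, hpq⟩ := hy'
    obtain ⟨u, v, hu, hv, hpu, hqv, huv⟩ := t2_separation hpq
    have h1 : G '' u ∈ 𝓝 y := (ho u hu).mem_nhds ⟨p, hpu, hp⟩
    have h2 : G '' v ∈ 𝓝 y := (ho v hv).mem_nhds ⟨q, hqv, hq⟩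
    filter_upwards [h1, h2] with y' h3 h4 h5
    obtain ⟨p', hp', rfl⟩ := h3
    obtain ⟨q', hq', hqe⟩ := h4
    have h6 := h5 p' q' rfl hqe
    exact (disjoint_left.1 huv) hp' (h6 ▸ hq')
  have hSo : IsOpen S := by
    rw [isOpen_iff_mem_nhds]
    intro y hy
    obtain ⟨p, hp⟩ := hsurj y
    obtain ⟨W, hW, hWi⟩ := hi p
    obtain ⟨W', hW', hWo, hpW⟩ := mem_nhds_iff.1 hW
    have h1 : IsClosed (G '' W'ᶜ) := hcl _ hWo.isClosed_compl
    have h2 : y ∉ G '' W'ᶜ := by
      rintro ⟨q, hq, hqy⟩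
      exact hq (hy p q hp hqy ▸ hpW)
    filter_upwards [h1.isOpen_compl.mem_nhds h2] with y' hy' a b ha hb
    have h3 : ∀ c, G c = y' → c ∈ W' := by
      intro c hcy
      by_contra hcW
      exact hy' ⟨c, hcW, hcy⟩
    exact hWi (hW' (h3 a ha)) (hW' (h3 b hb)) (ha.trans hb.symm)
  have hS : S = univ := IsClopen.eq_univ ⟨hSc, hSo⟩
    ⟨G x₀, fun p q hp hq => (h0 p hp).trans (h0 q hq).symm⟩
  intro p q hpq
  have h1 : G q ∈ S := by rw [hS]; exact mem_univ _
  exact h1 p q hpq rfl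

section opens

variable {m : ℕ} {X Y : Type} [TopologicalSpace X] [ChartedSpace (E (m + 1)) X]
  [TopologicalSpace Y] [ChartedSpace (E (m + 1)) Y]

/-- local diffeomorphisms and open submanifolds -/
theorem ld_opens (U : TopologicalSpace.Opens X) (f : X → Y) (u : U) :
    LD (m + 1) (fun x : U => f (x : X)) u ↔ LD (m + 1) f (u : X) := by
  constructor
  · intro h
    obtain ⟨p, hp1, hp2, hp3, hp4⟩ := (LD_val (n := m + 1) U u).exists_inverse
    have h1 : LD (m + 1) (fun x : U => f (x : X)) (p (u : X)) := by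
      rw [hp2]
      exact h
    refine (LD.comp_fun h1 hp1).congr ?_
    filter_upwards [hp4] with x hx
    rw [hx]
  · intro h
    exact LD.comp_fun h (LD_val U u)

/-- the same for a map defined only on the open submanifold -/
theorem ld_of_opens (U : TopologicalSpace.Opens X) (g : U → Y) (f : X → Y) (u : U)
    (hg : ∀ x : U, f (x : X) = g x) (h : LD (m + 1) g u) : LD (m + 1) f (u : X) := by
  rw [← ld_opens U f u]
  refine h.congr (Eventually.of_forall fun x => ?_)
  exact hg x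

/-- the rank -/
theorem rk_opens [IsManifold (𝓡 (m + 1)) ∞ X] [IsManifold (𝓡 (m + 1)) ∞ Y]
    (U : TopologicalSpace.Opens X) (f : X → Y) (u : U)
    (hf : ContMDiff (𝓡 (m + 1)) (𝓡 (m + 1)) ∞ f) (h : RkY (m := m) f (u : X)) :
    RkY (m := m) (fun x : U => f (x : X)) u := by
  have hn : (∞ : WithTop ℕ∞) ≠ 0 := by simp
  have hv := LD_val (n := m + 1) U u
  let Df : E (m + 1) →L[ℝ] E (m + 1) := mfderiv (𝓡 (m + 1)) (𝓡 (m + 1)) f (u : X)
  let Dv : E (m + 1) →L[ℝ] E (m + 1) :=
    mfderiv (𝓡 (m + 1)) (𝓡 (m + 1)) (Subtype.val : U → X) u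
  have hDv : Injective Dv := hv.mfderiv_injective
  have hDvs : Surjective Dv := by
    have := LinearMap.injective_iff_surjective (f := Dv.toLinearMap)
    exact this.mp hDv
  have c1 : HasMFDerivAt (𝓡 (m + 1)) (𝓡 (m + 1)) (fun x : U => f (x : X)) u (Df ∘L Dv) :=
    HasMFDerivAt.comp (g := f) (f := (Subtype.val : U → X)) u
      ((hf.mdifferentiableAt hn (x := (u : X))).hasMFDerivAt)
      hv.mdifferentiableAt.hasMFDerivAt
  have e1 : mfderiv (𝓡 (m + 1)) (𝓡 (m + 1)) (fun x : U => f (x : X)) u = Df ∘L Dv := c1.mfderiv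
  have key : ∀ D : E (m + 1) →L[ℝ] E (m + 1), D = Df ∘L Dv →
      m ≤ Module.finrank ℝ (LinearMap.range D.toLinearMap) := by
    rintro D rfl
    have e2 : LinearMap.range (Df ∘L Dv).toLinearMap = LinearMap.range Df.toLinearMap := by
      change LinearMap.range (Df.toLinearMap ∘ₗ Dv.toLinearMap) = _
      exact LinearMap.range_comp_of_range_eq_top _ (LinearMap.range_eq_top.2 hDvs)
    rw [e2]
    exact h
  exact key _ e1

/-- the setting -/
theorem setting_opens [IsManifold (𝓡 (m + 1)) ∞ X] [IsManifold (𝓡 (m + 1)) ∞ Y]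
    (U : TopologicalSpace.Opens X) (f : X → Y) (hf : SettingY (m := m) f) :
    SettingY (m := m) (fun x : U => f (x : X)) := by
  classical
  refine ⟨hf.smooth.comp contMDiff_subtype_val, ?_, ?_⟩
  · rw [dense_iff_inter_open]
    intro W hW hWn
    obtain ⟨w, hw⟩ := hWn
    have h1 : IsOpen ((Subtype.val : U → X) '' W) := U.2.isOpenMap_subtype_val W hW
    obtain ⟨_, ⟨v, hv, rfl⟩, hx⟩ := dense_iff_inter_open.1 hf.dense _ h1 ⟨w, w, hw, rfl⟩
    exact ⟨v, hv, (ld_opens U f v).2 hx⟩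
  · intro u
    obtain ⟨A, B, z, hAz, hco⟩ := hf.sign (u : X)
    have hzU : A z ∈ U := by rw [hAz]; exact u.2
    let A' : E (m + 1) → U := fun w => if h : A w ∈ U then ⟨A w, h⟩ else u
    have hA' : ∀ w, A w ∈ U → (A' w : X) = A w := by
      intro w hw
      simp only [A', dif_pos hw]
    have hz : A' z = u := Subtype.ext ((hA' z hzU).trans hAz)
    refine ⟨A', B, z, hz, LD_lift U hco.ld A' hA' hzU, ?_, ?_⟩
    · have h1 := hco.lb
      rw [hAz] at h1
      rw [hz]
      exact h1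
    · have h2 : ∀ᶠ w in 𝓝 z, A w ∈ U := hco.ld.continuousAt.tendsto.eventually (U.2.mem_nhds hzU)
      filter_upwards [hco.nn, h2.eventually_nhds] with w hw hw'
      have h3 : (fun w => B (f (A' w : X))) =ᶠ[𝓝 w] fun w => B (f (A w)) := by
        filter_upwards [hw'] with v hv
        rw [hA' v hv]
      change 0 ≤ (fderiv ℝ (fun w => B (f (A' w : X))) w).det
      rw [h3.fderiv_eq]
      exact hw

end opens

/-- Closed manifolds: fold-free smooth maps of corank at most one for which some regular point is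
alone in its fibre are limits of diffeomorphisms. -/
theorem closed1 (hC : S_COREY) (m : ℕ) (X Y : Type) [TopologicalSpace X] [T2Space X]
    [CompactSpace X] [ChartedSpace (E (m + 1)) X] [IsManifold (𝓡 (m + 1)) ∞ X]
    [TopologicalSpace Y] [T2Space Y] [CompactSpace Y] [PreconnectedSpace Y]
    [ChartedSpace (E (m + 1)) Y] [IsManifold (𝓡 (m + 1)) ∞ Y] (f : X → Y)
    (hf : SettingY (m := m) f) (hr : ∀ x, ¬ LD (m + 1) f x → RkY (m := m) f x)
    (x₀ : X) (hx₀ : LD (m + 1) f x₀) (h0 : ∀ x, f x = f x₀ → x = x₀)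
    (O : Set (X × Y)) (hO : IsOpen O) (hfO : ∀ x, (x, f x) ∈ O) :
    ∃ Φ : Diffeomorph (𝓡 (m + 1)) (𝓡 (m + 1)) X Y ∞, ∀ x, (x, Φ x) ∈ O := by
  classical
  have hfc : Continuous f := hf.smooth.continuous
  -- a retraction
  obtain ⟨a, κ, hκs, hκe, hκi⟩ := exists_embedding_euclidean_of_compact (I := 𝓡 (m + 1)) (M := Y)
  obtain ⟨U, ρ, hU, hUr, hρ, hρκ⟩ := Pool.Agent.L7h17.AH.s_TUB (m + 1) Y (E a) κ
    ⟨hκs, hκe.injective, hκi⟩ ⟨f x₀⟩
  have hR : Ret (m := m) κ ρ U := ⟨hU, fun y => hUr (mem_range_self y), hκs,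
    fun u hu => (hρ u hu).contMDiffAt (hU.mem_nhds hu), hρκ⟩
  -- remove the point
  let X' : TopologicalSpace.Opens X := ⟨{x | x ≠ x₀}, isOpen_ne⟩
  let f' : X' → Y := fun x => f (x : X)
  have hc : IsCompact {x : X' | ¬ LD (m + 1) f' x} := by
    rw [Topology.IsInducing.subtypeVal.isCompact_iff]
    have h1 : IsClosed {x : X | ¬ LD (m + 1) f x} := by
      rw [← isOpen_compl_iff, isOpen_iff_mem_nhds]
      intro x hx
      have hx' : LD (m + 1) f x := by
        by_contra h
        exact hx h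
      filter_upwards [hx'.eventually] with y hy
      exact fun h => h hy
    convert h1.isCompact using 1
    ext x
    constructor
    · rintro ⟨q, hq, rfl⟩
      exact fun h => hq ((ld_opens X' f q).2 h)
    · intro hx
      have hne : x ≠ x₀ := by
        rintro rfl
        exact hx hx₀
      exact ⟨⟨x, hne⟩, fun h => hx ((ld_opens X' f ⟨x, hne⟩).1 h), rfl⟩
  obtain ⟨C, hCc, hCO⟩ := hC m a X' Y κ ρ U f' hR (setting_opens X' f hf) hc
    (fun x hx => rk_opens X' f x hf.smooth (hr x fun h => hx ((ld_opens X' f x).2 h)))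
  let O' : Set (X' × Y) := {p | ((p.1 : X), p.2) ∈ O ∧ p.2 ≠ f x₀}
  have hO' : IsOpen O' := by
    refine IsOpen.inter ?_ ?_
    · exact hO.preimage ((continuous_subtype_val.comp continuous_fst).prodMk continuous_snd)
    · exact isOpen_ne.preimage continuous_snd
  obtain ⟨G, hG1, hG2, hG3⟩ := hCO O' hO' (fun x => ⟨hfO _, fun h => x.2 (h0 _ h)⟩)
  let G' : X → Y := fun x => if h : x ≠ x₀ then G ⟨x, h⟩ else f x₀
  have hG'1 : ∀ x : X', G' (x : X) = G x := by
    intro x
    have hx : (x : X) ≠ x₀ := x.2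
    simp only [G', dif_pos hx]
  have hG'0 : G' x₀ = f x₀ := by
    simp only [G', ne_eq, not_true_eq_false, dite_false]
  have hne : ∀ x, x ≠ x₀ → G' x ≠ f x₀ := by
    intro x hx
    have := (hG3 ⟨x, hx⟩).2
    rw [← hG'1 ⟨x, hx⟩] at this
    exact this
  have hLD : ∀ x, LD (m + 1) G' x := by
    intro x
    by_cases hx : x = x₀
    · subst hx
      refine hx₀.congr ?_
      have h1 : IsClosed ((Subtype.val : X' → X) '' C) :=
        (hCc.image continuous_subtype_val).isClosed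
      have h2 : x ∉ (Subtype.val : X' → X) '' C := by
        rintro ⟨q, -, hq⟩
        exact q.2 hq
      filter_upwards [h1.isOpen_compl.mem_nhds h2] with y hy
      by_cases hyx : y = x
      · rw [hyx, hG'0]
      · rw [hG'1 ⟨y, hyx⟩, hG2 ⟨y, hyx⟩ fun h => hy ⟨_, h, rfl⟩]
    · exact ld_of_opens X' G G' ⟨x, hx⟩ hG'1 (hG1 ⟨x, hx⟩)
  have hcont : Continuous G' := continuous_iff_continuousAt.2 fun x => (hLD x).continuousAt
  have hbij : Bijective G' := by
    refine bij_of_fibre G' hcont ?_ (fun x => ?_) x₀ (fun x hx => ?_)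
    · rw [isOpenMap_iff_nhds_le]
      intro x s hs
      exact mem_of_superset ((hLD x).image_mem_nhds hs) (image_preimage_subset _ _)
    · exact (hLD x).eventually_injOn
    · by_contra hne'
      exact hne x hne' (hx.trans hG'0)
  have hloc : IsLocalDiffeomorph (𝓡 (m + 1)) (𝓡 (m + 1)) ∞ G' := hLD
  refine ⟨hloc.diffeomorphOfBijective hbij, fun x => ?_⟩
  change (x, G' x) ∈ O
  by_cases hx : x = x₀
  · rw [hx, hG'0]
    exact hfO _
  · rw [hG'1 ⟨x, hx⟩]
    exact (hG3 ⟨x, hx⟩).1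

end Pool.Agent.L7h20.NF
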