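import Pool.Agent.L7h20.NF.Stm3

/-!
# Project NF: assembly for maps between manifolds
-/

set_option autoImplicit false

open Set Filter Topology Metric Function
open scoped Manifold ContDiff

noncomputable section

namespace Pool.Agent.L7h20.NF

open Pool.Agent.Y522

theorem corey (h1 : S_XFER) (h2 : S_PROPY) (h3 : S_LEAF2) (h4 : S_CIRC) (h5 : S_SUMY)
    (h6 : S_FINY) (h7 : S_CONEY) : S_COREY := by
  intro m a X Y _ _ _ _ _ _ _ _ κ ρ U f hR hf hc hr
  have hfc : Continuous f := hf.smooth.continuous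
  -- the bad set is closed
  have hcl : IsClosed {x : X | ¬ LD (m + 1) f x ∧ x ∉ GdY (m := m) κ ρ f} := by
    rw [← isOpen_compl_iff, isOpen_iff_mem_nhds]
    intro x hx
    by_cases hl : LD (m + 1) f x
    · filter_upwards [hl.eventually] with y hy
      exact fun h => h.1 hy
    · have hg : x ∈ GdY (m := m) κ ρ f := by
        by_contra hg
        exact hx ⟨hl, hg⟩
      obtain ⟨V, hV1, hV2, hV3, hV4⟩ := hg
      obtain ⟨-, -, -, g4, -⟩ := h7 m a X Y κ ρ U f hR hf
      filter_upwards [g4 V x hV1 hl hV4] with y hy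
      exact fun h => h.2 ⟨V, hV1, hV2, hV3, hy h.1⟩
  have hgood : ∀ x, ¬ LD (m + 1) f x → x ∈ GdY (m := m) κ ρ f := by
    intro x₀ hx₀
    by_contra hg
    obtain ⟨e, he⟩ : ∃ e, e = chartAt (E (m + 1)) (f x₀) := ⟨_, rfl⟩
    have hes : f x₀ ∈ e.source := by rw [he]; exact mem_chart_source _ _
    let X' : TopologicalSpace.Opens X := ⟨f ⁻¹' e.source, e.open_source.preimage hfc⟩
    have hX' : ∀ x : X', f x ∈ (chartAt (E (m + 1)) (f x₀)).source := by
      intro x
      rw [← he]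
      exact x.2
    obtain ⟨g1, g2, g3, -⟩ := h1 m a X Y κ ρ U f (f x₀) X' hR hf hX'
    let x' : X' := ⟨x₀, hes⟩
    let S : Set X' := {q | ¬ LD (m + 1) f (q : X) ∧ (q : X) ∉ GdY (m := m) κ ρ f}
    have hS : IsClosed S := hcl.preimage continuous_subtype_val
    obtain ⟨P, K, hxK, hK, hsub⟩ := h3 m X' (locF f (chartAt (E (m + 1)) (f x₀)) X') S x' g1 hS
      (fun q hq => ⟨fun h => hq.1 ((g2 q).1 h), (g3 q).2 (hr _ hq.1)⟩)
      (by
        rw [Topology.IsInducing.subtypeVal.isCompact_iff]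
        have h8 : IsCompact ({x : X | ¬ LD (m + 1) f x} ∩
            ({x : X | ¬ LD (m + 1) f x ∧ x ∉ GdY (m := m) κ ρ f} ∩ {x : X | f x = f x₀})) :=
          hc.inter_right (hcl.inter (isClosed_eq hfc continuous_const))
        convert h8 using 1
        ext x
        constructor
        · rintro ⟨q, ⟨hq1, hq2⟩, rfl⟩
          refine ⟨hq1.1, hq1, ?_⟩
          have h9 : chartAt (E (m + 1)) (f x₀) (f (q : X)) = chartAt (E (m + 1)) (f x₀) (f x₀) := hq2
          exact (chartAt (E (m + 1)) (f x₀)).injOn (hX' q) (mem_chart_source _ _) h9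
        · rintro ⟨-, hx1, hx2⟩
          have hx2' : f x = f x₀ := hx2
          have hxe : f x ∈ e.source := by rw [hx2']; exact hes
          refine ⟨⟨x, hxe⟩, ⟨hx1, ?_⟩, rfl⟩
          change chartAt (E (m + 1)) (f x₀) (f x) = chartAt (E (m + 1)) (f x₀) (f x₀)
          rw [hx2'])
      (fun P A L b hB h0 t ht =>
        h2 m a X Y κ ρ U f (f x₀) X' hR hf hc hX' P A L b hB h0.1 h0.2 t ht)
      ⟨hx₀, hg⟩
    have := h4 m X' (locF f (chartAt (E (m + 1)) (f x₀)) X') P K g1 hK hsub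
    rw [this] at hxK
    exact hxK
  obtain ⟨V, hV1, hV2, hV3⟩ := h5 m a X Y κ ρ U f hR hf hc hgood
  exact ⟨tsupport V, hV2, fun O hO hfO => h6 m a X Y κ ρ U f V O hR hf hV1 hV2 hV3 hO hfO⟩

end Pool.Agent.L7h20.NF
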